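import Mathlib

/-!
# Tail functions of tropicalized Gaussians: the Ingleton obstruction

For every non-archimedean local field and every `d ≥ 4` there is a tropical polynomial supported on
the cube with integer supermodular coefficients that is not the tail function of any lattice.
-/

namespace Pool.Agent.Q298.Old.IngletonObstruction

open MeasureTheory ValuativeRel
open scoped Matrix

section Definitions

variable {K : Type*} [Field K] [ValuativeRel K]

/-- The lattice `A 𝒪ᵈ`. -/
def lattice {d : ℕ} (A : GL (Fin d) K) : Set (Fin d → K) :=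
  {x | ∃ z : Fin d → K, (∀ i, z i ∈ 𝒪[K]) ∧ x = (A : Matrix (Fin d) (Fin d) K) *ᵥ z}

/-- The event `V ≥ v`: for every `i` the normalised valuation of `x i` is at least `v i`, i.e.
`|x i| ≤ |π| ^ (v i)`, where `π` is the uniformiser. -/
def tailEvent {d : ℕ} (π : K) (v : Fin d → ℤ) : Set (Fin d → K) :=
  {x | ∀ i, valuation K (x i) ≤ valuation K π ^ v i}

/-- The tail function `φ_L(v) = - log_q P(V ≥ v)`, where `X` is uniformly distributed on the lattice
`L = A 𝒪ᵈ` (normalised Haar measure on `L`; `μ` is a Haar measure on `Kᵈ`), and `q` is the size of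
the residue field. -/
noncomputable def tailFunction {d : ℕ} [MeasurableSpace (Fin d → K)] (μ : Measure (Fin d → K))
    (π : K) (A : GL (Fin d) K) (v : Fin d → ℤ) : ℝ :=
  -Real.logb (Nat.card 𝓀[K]) ((μ (lattice A ∩ tailEvent π v) / μ (lattice A)).toReal)

/-- The tropical polynomial `max_I (∑ i ∈ I, v i - c I)`. -/
noncomputable def tropicalPolynomial {d : ℕ} (c : Finset (Fin d) → ℤ) (v : Fin d → ℝ) : ℝ :=
  (Finset.univ : Finset (Finset (Fin d))).sup' Finset.univ_nonempty fun I => ∑ i ∈ I, v i - c I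

/-- Integer supermodular coefficients with `c ∅ = 0`. -/
def Supermodular {d : ℕ} (c : Finset (Fin d) → ℤ) : Prop :=
  c ∅ = 0 ∧ ∀ I J, c I + c J ≤ c (I ∪ J) + c (I ∩ J)

end Definitions

/-! ### Ingleton's inequality for indices of subgroups of an abelian group -/

section Ingleton

variable {G : Type*} [AddCommGroup G]

lemma index_inf_mul_index_sup (H K : AddSubgroup G) :
    (H ⊓ K).index * (H ⊔ K).index = H.index * K.index := by
  have h1 : (H ⊓ K).relIndex H * H.index = (H ⊓ K).index :=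
    AddSubgroup.relIndex_mul_index inf_le_left
  have h2 : K.relIndex (H ⊔ K) * (H ⊔ K).index = K.index :=
    AddSubgroup.relIndex_mul_index le_sup_right
  rw [AddSubgroup.relIndex_sup_right] at h2
  rw [AddSubgroup.inf_relIndex_left] at h1
  rw [← h1, ← h2]
  ring

lemma index_mono {H K : AddSubgroup G} [H.FiniteIndex] (h : H ≤ K) : K.index ≤ H.index :=
  Nat.le_of_dvd (Nat.pos_of_ne_zero AddSubgroup.FiniteIndex.index_ne_zero)
    (AddSubgroup.index_dvd_of_le h)

theorem ingleton (A B C D : AddSubgroup G) [A.FiniteIndex] [B.FiniteIndex] [C.FiniteIndex]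
    [D.FiniteIndex] :
    A.index * B.index * (A ⊓ B ⊓ C).index * (A ⊓ B ⊓ D).index * (C ⊓ D).index ≤
      (A ⊓ B).index * (A ⊓ C).index * (A ⊓ D).index * (B ⊓ C).index * (B ⊓ D).index := by
  have hstep : ∀ E : AddSubgroup G, E.FiniteIndex →
      (A ⊓ B ⊓ E).index * ((A ⊔ B) ⊓ E).index ≤ (A ⊓ E).index * (B ⊓ E).index := by
    intro E hE
    have h1 := index_inf_mul_index_sup (A ⊓ E) (B ⊓ E)
    have h2 : (A ⊓ E) ⊓ (B ⊓ E) = A ⊓ B ⊓ E := by
      rw [inf_inf_inf_comm, inf_idem]
    rw [h2] at h1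
    rw [← h1]
    refine Nat.mul_le_mul_left _ ?_
    have : (A ⊓ E ⊔ B ⊓ E).FiniteIndex :=
      AddSubgroup.finiteIndex_of_le (le_sup_left : A ⊓ E ≤ A ⊓ E ⊔ B ⊓ E)
    exact index_mono (sup_le (inf_le_inf_right _ le_sup_left) (inf_le_inf_right _ le_sup_right))
  have hC := hstep C inferInstance
  have hD := hstep D inferInstance
  have hZ : (C ⊓ D).index * (A ⊔ B).index ≤ ((A ⊔ B) ⊓ C).index * ((A ⊔ B) ⊓ D).index := by
    have h1 := index_inf_mul_index_sup ((A ⊔ B) ⊓ C) ((A ⊔ B) ⊓ D)
    rw [← h1]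
    have hf : (A ⊔ B).FiniteIndex := AddSubgroup.finiteIndex_of_le (le_sup_left : A ≤ A ⊔ B)
    have hf2 : ((A ⊔ B) ⊓ C ⊔ (A ⊔ B) ⊓ D).FiniteIndex :=
      AddSubgroup.finiteIndex_of_le (le_sup_left : (A ⊔ B) ⊓ C ≤ (A ⊔ B) ⊓ C ⊔ (A ⊔ B) ⊓ D)
    refine Nat.mul_le_mul ?_ ?_
    · exact index_mono (inf_le_inf inf_le_right inf_le_right)
    · exact index_mono (sup_le inf_le_left inf_le_left)
  have hAB := index_inf_mul_index_sup A B
  calc A.index * B.index * (A ⊓ B ⊓ C).index * (A ⊓ B ⊓ D).index * (C ⊓ D).index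
      = (A ⊓ B).index * (A ⊓ B ⊓ C).index * (A ⊓ B ⊓ D).index *
          ((C ⊓ D).index * (A ⊔ B).index) := by rw [← hAB]; ring
    _ ≤ (A ⊓ B).index * (A ⊓ B ⊓ C).index * (A ⊓ B ⊓ D).index *
          (((A ⊔ B) ⊓ C).index * ((A ⊔ B) ⊓ D).index) := Nat.mul_le_mul_left _ hZ
    _ = (A ⊓ B).index * ((A ⊓ B ⊓ C).index * ((A ⊔ B) ⊓ C).index) *
          ((A ⊓ B ⊓ D).index * ((A ⊔ B) ⊓ D).index) := by ring
    _ ≤ (A ⊓ B).index * ((A ⊓ C).index * (B ⊓ C).index) * ((A ⊓ D).index * (B ⊓ D).index) :=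
          Nat.mul_le_mul (Nat.mul_le_mul_left _ hC) hD
    _ = _ := by ring

end Ingleton

/-! ### The coefficients -/

/-- The value of the coefficient in terms of membership of the four special coordinates. -/
def c4 : Bool → Bool → Bool → Bool → ℤ
  | true, true, true, true => 4
  | true, true, true, false => 2
  | true, true, false, true => 2
  | true, false, true, true => 2
  | false, true, true, true => 2
  | true, true, false, false => 1
  | true, false, true, false => 1
  | true, false, false, true => 1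
  | false, true, true, false => 1
  | false, true, false, true => 1
  | _, _, _, _ => 0

lemma c4_super : ∀ a b c d a' b' c' d' : Bool, c4 a b c d + c4 a' b' c' d' ≤
    c4 (a || a') (b || b') (c || c') (d || d') + c4 (a && a') (b && b') (c && c') (d && d') := by
  decide

lemma c4_nonneg : ∀ a b c d : Bool, 0 ≤ c4 a b c d := by decide

lemma c4_le : ∀ a b c d : Bool, c4 a b c d ≤ 4 := by decide

section Coeff

variable {d : ℕ} (hd : 4 ≤ d)

/-- The coefficients. -/
def coef (I : Finset (Fin d)) : ℤ :=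
  c4 (decide ((⟨0, by omega⟩ : Fin d) ∈ I)) (decide ((⟨1, by omega⟩ : Fin d) ∈ I))
    (decide ((⟨2, by omega⟩ : Fin d) ∈ I)) (decide ((⟨3, by omega⟩ : Fin d) ∈ I))

lemma coef_super : Supermodular (coef hd) := by
  refine ⟨by simp [coef, c4], fun I J => ?_⟩
  unfold coef
  have h := c4_super (decide ((⟨0, by omega⟩ : Fin d) ∈ I)) (decide ((⟨1, by omega⟩ : Fin d) ∈ I))
    (decide ((⟨2, by omega⟩ : Fin d) ∈ I)) (decide ((⟨3, by omega⟩ : Fin d) ∈ I))
    (decide ((⟨0, by omega⟩ : Fin d) ∈ J)) (decide ((⟨1, by omega⟩ : Fin d) ∈ J))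
    (decide ((⟨2, by omega⟩ : Fin d) ∈ J)) (decide ((⟨3, by omega⟩ : Fin d) ∈ J))
  simpa only [Finset.mem_union, Finset.mem_inter, Bool.decide_or, Bool.decide_and] using h

/-- The point `v` with `v i = 4` for `i ∈ I` and `v i = -4` for `i ∉ I`. -/
def pt (I : Finset (Fin d)) : Fin d → ℤ := fun i => if i ∈ I then 4 else -4

lemma tropical_pt (I : Finset (Fin d)) :
    tropicalPolynomial (coef hd) (fun i => (pt I i : ℝ)) = 4 * I.card - coef hd I := by
  have hsum : ∀ J : Finset (Fin d), ∑ i ∈ J, (pt I i : ℝ) = 4 * (J ∩ I).card - 4 * (J \ I).card := by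
    intro J
    have h1 : ∑ i ∈ J, (pt I i : ℝ) = ∑ i ∈ J ∩ I, (pt I i : ℝ) + ∑ i ∈ J \ I, (pt I i : ℝ) :=
      (Finset.sum_inter_add_sum_sdiff J I _).symm
    rw [h1]
    have h2 : ∑ i ∈ J ∩ I, (pt I i : ℝ) = ∑ i ∈ J ∩ I, (4 : ℝ) := by
      refine Finset.sum_congr rfl fun i hi => ?_
      simp [pt, (Finset.mem_inter.mp hi).2]
    have h3 : ∑ i ∈ J \ I, (pt I i : ℝ) = ∑ i ∈ J \ I, (-4 : ℝ) := by
      refine Finset.sum_congr rfl fun i hi => ?_
      simp [pt, (Finset.mem_sdiff.mp hi).2]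
    rw [h2, h3]
    simp
    ring
  have hbound : ∀ J : Finset (Fin d), ∑ i ∈ J, (pt I i : ℝ) - coef hd J ≤
      4 * I.card - coef hd I := by
    intro J
    rw [hsum J]
    by_cases hJ : J = I
    · subst hJ; simp
    · have h0 : (0 : ℝ) ≤ coef hd J := by exact_mod_cast c4_nonneg _ _ _ _
      have h4 : (coef hd I : ℝ) ≤ 4 := by exact_mod_cast c4_le _ _ _ _
      have hcard : (J ∩ I).card + 1 ≤ I.card + (J \ I).card := by
        by_contra hcon
        have h5 : (J ∩ I).card ≤ I.card := Finset.card_le_card Finset.inter_subset_right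
        have h6 : (J \ I).card = 0 := by omega
        have h7 : (J ∩ I).card = I.card := by omega
        have h8 : J ∩ I = I := Finset.eq_of_subset_of_card_le Finset.inter_subset_right h7.ge
        have h9 : J ⊆ I := Finset.sdiff_eq_empty_iff_subset.mp (Finset.card_eq_zero.mp h6)
        exact hJ (Finset.Subset.antisymm h9 (by rw [← h8]; exact Finset.inter_subset_left))
      have hcard' : ((J ∩ I).card : ℝ) + 1 ≤ I.card + (J \ I).card := by exact_mod_cast hcard
      linarith
  unfold tropicalPolynomial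
  apply le_antisymm
  · exact Finset.sup'_le _ _ fun J _ => hbound J
  · have h := Finset.le_sup' (fun J : Finset (Fin d) => ∑ i ∈ J, (pt I i : ℝ) - coef hd J)
      (Finset.mem_univ I)
    refine le_trans (le_of_eq ?_) h
    rw [hsum I]
    simp

end Coeff

/-! ### The subgroups of the lattice -/

section Local

variable {K : Type*} [Field K] [ValuativeRel K]

/-- The lattice as a subgroup. -/
def latticeGroup {d : ℕ} (A : GL (Fin d) K) : AddSubgroup (Fin d → K) where
  carrier := lattice A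
  zero_mem' := ⟨0, fun _ => zero_mem _, by simp⟩
  add_mem' := by
    rintro x y ⟨z, hz, rfl⟩ ⟨w, hw, rfl⟩
    exact ⟨z + w, fun i => add_mem (hz i) (hw i), by rw [Matrix.mulVec_add]⟩
  neg_mem' := by
    rintro x ⟨z, hz, rfl⟩
    exact ⟨-z, fun i => neg_mem (hz i), by rw [Matrix.mulVec_neg]⟩

/-- The tail event as a subgroup. -/
def tailGroup {d : ℕ} (π : K) (v : Fin d → ℤ) : AddSubgroup (Fin d → K) where
  carrier := tailEvent π v
  zero_mem' := fun i => by simp
  add_mem' := fun {x y} hx hy i => (Valuation.map_add _ _ _).trans (max_le (hx i) (hy i))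
  neg_mem' := fun {x} hx i => by
    rw [Pi.neg_apply, Valuation.map_neg]; exact hx i

lemma lattice_eq {d : ℕ} (A : GL (Fin d) K) :
    lattice A = {x | ∀ i, valuation K ((((A⁻¹ : GL (Fin d) K) : Matrix (Fin d) (Fin d) K) *ᵥ x) i)
      ≤ 1} := by
  ext x
  constructor
  · rintro ⟨z, hz, rfl⟩ i
    rw [Matrix.mulVec_mulVec, ← Units.val_mul, inv_mul_cancel, Units.val_one, Matrix.one_mulVec]
    exact hz i
  · intro hx
    refine ⟨((A⁻¹ : GL (Fin d) K) : Matrix (Fin d) (Fin d) K) *ᵥ x, hx, ?_⟩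
    rw [Matrix.mulVec_mulVec, ← Units.val_mul, mul_inv_cancel, Units.val_one, Matrix.one_mulVec]

variable [TopologicalSpace K] [IsNonarchimedeanLocalField K]

lemma isOpen_ball (r : K) (hr : r ≠ 0) : IsOpen {x : K | valuation K x ≤ valuation K r} := by
  simp_rw [← (valuation K).restrict_le_iff]
  apply Valuation.isOpen_closedBall
  simpa using hr

lemma isOpen_lattice {d : ℕ} (A : GL (Fin d) K) : IsOpen (lattice A) := by
  rw [lattice_eq, Set.ofPred_forall]
  refine isOpen_iInter_of_finite fun i => ?_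
  have h1 : IsOpen {x : K | valuation K x ≤ 1} := by
    simpa using isOpen_ball (K := K) 1 one_ne_zero
  refine h1.preimage (f := fun x : Fin d → K =>
    (((A⁻¹ : GL (Fin d) K) : Matrix (Fin d) (Fin d) K) *ᵥ x) i) ?_
  fun_prop

lemma isCompact_lattice {d : ℕ} (A : GL (Fin d) K) : IsCompact (lattice A) := by
  have h1 : IsCompact (Set.pi Set.univ fun _ : Fin d => {x : K | valuation K x ≤ 1}) :=
    isCompact_univ_pi fun _ => IsNonarchimedeanLocalField.isCompact_closedBall K 1
  have h2 : Continuous fun z : Fin d → K => (A : Matrix (Fin d) (Fin d) K) *ᵥ z := by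
    fun_prop
  have h3 := h1.image h2
  convert h3 using 1
  ext x
  constructor
  · rintro ⟨z, hz, rfl⟩
    exact ⟨z, fun i _ => hz i, rfl⟩
  · rintro ⟨z, hz, rfl⟩
    exact ⟨z, fun i => hz i (Set.mem_univ i), rfl⟩

lemma isOpen_tail {d : ℕ} {π : K} (hπ : π ≠ 0) (v : Fin d → ℤ) : IsOpen (tailEvent π v) := by
  unfold tailEvent
  rw [Set.ofPred_forall]
  refine isOpen_iInter_of_finite fun i => ?_
  have h1 := isOpen_ball (K := K) (π ^ v i) (zpow_ne_zero _ hπ)
  rw [map_zpow₀] at h1
  exact h1.preimage (f := fun x : Fin d → K => x i) (continuous_apply i)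

/-- The probability of the tail event is the inverse of the index. -/
lemma index_mul {d : ℕ} [MeasurableSpace (Fin d → K)] [BorelSpace (Fin d → K)]
    (μ : Measure (Fin d → K)) [μ.IsAddHaarMeasure] {π : K} (hπ : π ≠ 0) (A : GL (Fin d) K)
    (v : Fin d → ℤ) :
    ((tailGroup π v).addSubgroupOf (latticeGroup A)).FiniteIndex ∧
    ((tailGroup π v).addSubgroupOf (latticeGroup A)).index * μ (lattice A ∩ tailEvent π v) =
      μ (lattice A) := by
  have hopen : IsOpen ((latticeGroup A : AddSubgroup (Fin d → K)) : Set (Fin d → K)) :=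
    isOpen_lattice A
  have hmeas : MeasurableSet ((latticeGroup A : AddSubgroup (Fin d → K)) : Set (Fin d → K)) :=
    hopen.measurableSet
  have hcomp : CompactSpace (latticeGroup A) :=
    isCompact_iff_compactSpace.mp (isCompact_lattice A)
  have hopen' : IsOpen (((tailGroup π v).addSubgroupOf (latticeGroup A) :
      AddSubgroup (latticeGroup A)) : Set (latticeGroup A)) :=
    (isOpen_tail hπ v).preimage continuous_subtype_val
  have hfin : Finite ((latticeGroup A) ⧸ ((tailGroup π v).addSubgroupOf (latticeGroup A))) :=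
    AddSubgroup.quotient_finite_of_isOpen _ hopen'
  have hfi : ((tailGroup π v).addSubgroupOf (latticeGroup A)).FiniteIndex :=
    AddSubgroup.finiteIndex_iff_finite_quotient.mpr hfin
  refine ⟨hfi, ?_⟩
  have hemb : MeasurableEmbedding ((latticeGroup A).subtype) := MeasurableEmbedding.subtype_coe hmeas
  have hinv : (Measure.comap ((latticeGroup A).subtype) μ).IsAddLeftInvariant :=
    Measure.IsAddLeftInvariant.comap μ hemb
  have h := AddSubgroup.index_mul_measure ((tailGroup π v).addSubgroupOf (latticeGroup A))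
    hopen'.measurableSet (Measure.comap ((latticeGroup A).subtype) μ)
  rw [hemb.comap_apply, hemb.comap_apply] at h
  have e1 : (latticeGroup A).subtype '' Set.univ = lattice A := by
    rw [Set.image_univ]
    exact Subtype.range_coe
  have e2 : (latticeGroup A).subtype ''
      (((tailGroup π v).addSubgroupOf (latticeGroup A) : AddSubgroup (latticeGroup A)) :
        Set (latticeGroup A)) = lattice A ∩ tailEvent π v := by
    ext x
    constructor
    · rintro ⟨⟨y, hy⟩, hy2, rfl⟩
      exact ⟨hy, hy2⟩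
    · rintro ⟨h1, h2⟩
      exact ⟨⟨x, h1⟩, h2, rfl⟩
  rw [e1, e2] at h
  exact h

end Local

/-- For every non-archimedean local field `K` and every `d ≥ 4` there are integer supermodular
coefficients `c` such that the tropical polynomial with coefficients `c` does not agree on `ℤᵈ`
with the tail function of any lattice of `Kᵈ`. -/
theorem result {K : Type*} [Field K] [ValuativeRel K] [TopologicalSpace K]
    [IsNonarchimedeanLocalField K] {d : ℕ} (hd : 4 ≤ d) [MeasurableSpace (Fin d → K)]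
    [BorelSpace (Fin d → K)] (μ : Measure (Fin d → K)) [μ.IsAddHaarMeasure] (π : 𝒪[K])
    (hπ : Irreducible π) :
    ∃ c : Finset (Fin d) → ℤ, Supermodular c ∧
      ∀ A : GL (Fin d) K, ∃ v : Fin d → ℤ,
        tailFunction μ (π : K) A v ≠ tropicalPolynomial c fun i => (v i : ℝ) := by
  refine ⟨coef hd, coef_super hd, fun A => ?_⟩
  by_contra hcon
  push Not at hcon
  have hπ0 : (π : K) ≠ 0 := by
    intro h
    exact hπ.ne_zero (Subtype.ext h)
  set q : ℕ := Nat.card 𝓀[K] with hq
  have hq1 : 1 < q := by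
    rw [hq]
    exact Finite.one_lt_card
  have hq1' : (1 : ℝ) < q := by exact_mod_cast hq1
  have hq0 : (0 : ℝ) < q := by linarith
  -- the subgroups
  let H : Finset (Fin d) → AddSubgroup (latticeGroup A) := fun I =>
    (tailGroup (π : K) (pt I)).addSubgroupOf (latticeGroup A)
  have hH : ∀ I J, H I ⊓ H J = H (I ∪ J) := by
    intro I J
    ext x
    simp only [H, AddSubgroup.mem_inf, AddSubgroup.mem_addSubgroupOf]
    have hle : valuation K (π : K) ^ (4 : ℤ) ≤ valuation K (π : K) ^ (-4 : ℤ) :=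
      zpow_le_zpow_right_of_le_one₀ (zero_lt_iff.mpr ((valuation K).ne_zero_iff.mpr hπ0)) π.2
        (by norm_num)
    constructor
    · rintro ⟨h1, h2⟩ i
      have h1i := h1 i
      have h2i := h2 i
      unfold pt at h1i h2i ⊢
      by_cases hI : i ∈ I <;> by_cases hJ : i ∈ J <;> simp_all
    · intro h
      refine ⟨fun i => ?_, fun i => ?_⟩
      · have hi := h i
        unfold pt at hi ⊢
        by_cases hI : i ∈ I <;> by_cases hJ : i ∈ J <;> simp_all
        exact hi.trans hle
      · have hi := h i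
        unfold pt at hi ⊢
        by_cases hI : i ∈ I <;> by_cases hJ : i ∈ J <;> simp_all
        exact hi.trans hle
  have hfi : ∀ I, (H I).FiniteIndex := fun I => (index_mul μ hπ0 A (pt I)).1
  -- the index of `H I` is `q ^ (4 |I| - c I)`
  have hidx : ∀ I : Finset (Fin d), ((H I).index : ℝ) = (q : ℝ) ^ (4 * (I.card : ℤ) - coef hd I) := by
    intro I
    have h1 := (index_mul μ hπ0 A (pt I)).2
    have hfin := hfi I
    have hn0 : (H I).index ≠ 0 := AddSubgroup.FiniteIndex.index_ne_zero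
    have hLpos : 0 < μ (lattice A) :=
      (isOpen_lattice A).measure_pos μ ⟨0, fun _ => 0, fun _ => zero_mem _, by
        rw [show (fun _ : Fin d => (0 : K)) = 0 from rfl, Matrix.mulVec_zero]⟩
    have hLfin : μ (lattice A) ≠ ⊤ := (isCompact_lattice A).measure_lt_top.ne
    have h2 : (μ (lattice A ∩ tailEvent (π : K) (pt I)) / μ (lattice A)).toReal =
        1 / ((H I).index : ℝ) := by
      rw [← h1]
      have hT0 : μ (lattice A ∩ tailEvent (π : K) (pt I)) ≠ 0 := by
        intro h0
        rw [h0, mul_zero] at h1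
        exact hLpos.ne h1
      have hTfin : μ (lattice A ∩ tailEvent (π : K) (pt I)) ≠ ⊤ :=
        ne_top_of_le_ne_top hLfin (measure_mono Set.inter_subset_left)
      rw [ENNReal.toReal_div, ENNReal.toReal_mul, ENNReal.toReal_natCast]
      have h3 : (μ (lattice A ∩ tailEvent (π : K) (pt I))).toReal ≠ 0 :=
        ENNReal.toReal_ne_zero.mpr ⟨hT0, hTfin⟩
      change _ / (((H I).index : ℝ) * _) = _
      have h4 : ((H I).index : ℝ) ≠ 0 := by exact_mod_cast hn0
      field_simp
    have h3 := hcon (pt I)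
    rw [tropical_pt, tailFunction, h2, ← hq, one_div, Real.logb_inv, neg_neg] at h3
    have h4 : (0 : ℝ) < (H I).index := by exact_mod_cast Nat.pos_of_ne_zero hn0
    have h5 : ((H I).index : ℝ) = (q : ℝ) ^ (Real.logb q ((H I).index : ℝ)) :=
      (Real.rpow_logb hq0 hq1'.ne' h4).symm
    rw [h5, h3, ← Real.rpow_intCast]
    push_cast
    rfl
  have key := ingleton (H {⟨0, by omega⟩}) (H {⟨1, by omega⟩}) (H {⟨2, by omega⟩})
    (H {⟨3, by omega⟩})
  simp only [hH] at key
  have key' := (Nat.cast_le (α := ℝ)).mpr key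
  push_cast at key'
  simp only [hidx] at key'
  have n01 : (⟨0, by omega⟩ : Fin d) ≠ ⟨1, by omega⟩ := by simp
  have n02 : (⟨0, by omega⟩ : Fin d) ≠ ⟨2, by omega⟩ := by simp
  have n03 : (⟨0, by omega⟩ : Fin d) ≠ ⟨3, by omega⟩ := by simp
  have n12 : (⟨1, by omega⟩ : Fin d) ≠ ⟨2, by omega⟩ := by simp
  have n13 : (⟨1, by omega⟩ : Fin d) ≠ ⟨3, by omega⟩ := by simp
  have n23 : (⟨2, by omega⟩ : Fin d) ≠ ⟨3, by omega⟩ := by simp
  have hpair : ∀ a b : Fin d, a ≠ b → (({a} : Finset (Fin d)) ∪ {b}).card = 2 := by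
    intro a b hab
    rw [← Finset.insert_eq, Finset.card_pair hab]
  have htrip : ∀ a b c : Fin d, a ≠ b → a ≠ c → b ≠ c →
      (({a} : Finset (Fin d)) ∪ {b} ∪ {c}).card = 3 := by
    intro a b c hab hac hbc
    rw [Finset.card_union_of_disjoint, hpair a b hab, Finset.card_singleton]
    simp [hac.symm, hbc.symm]
  rw [hpair _ _ n01, hpair _ _ n02, hpair _ _ n03, hpair _ _ n12, hpair _ _ n13, hpair _ _ n23,
    htrip _ _ _ n01 n02 n12, htrip _ _ _ n01 n03 n13] at key'
  simp only [Finset.card_singleton] at key'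
  have v0 : coef hd ({⟨0, by omega⟩} : Finset (Fin d)) = 0 := by simp [coef, c4]
  have v1 : coef hd ({⟨1, by omega⟩} : Finset (Fin d)) = 0 := by simp [coef, c4]
  have v01 : coef hd ({⟨0, by omega⟩} ∪ {⟨1, by omega⟩} : Finset (Fin d)) = 1 := by
    simp [coef, c4]
  have v02 : coef hd ({⟨0, by omega⟩} ∪ {⟨2, by omega⟩} : Finset (Fin d)) = 1 := by
    simp [coef, c4]
  have v03 : coef hd ({⟨0, by omega⟩} ∪ {⟨3, by omega⟩} : Finset (Fin d)) = 1 := by
    simp [coef, c4]
  have v12 : coef hd ({⟨1, by omega⟩} ∪ {⟨2, by omega⟩} : Finset (Fin d)) = 1 := by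
    simp [coef, c4]
  have v13 : coef hd ({⟨1, by omega⟩} ∪ {⟨3, by omega⟩} : Finset (Fin d)) = 1 := by
    simp [coef, c4]
  have v23 : coef hd ({⟨2, by omega⟩} ∪ {⟨3, by omega⟩} : Finset (Fin d)) = 0 := by
    simp [coef, c4]
  have v012 : coef hd ({⟨0, by omega⟩} ∪ {⟨1, by omega⟩} ∪ {⟨2, by omega⟩} : Finset (Fin d)) = 2 := by
    simp [coef, c4]
  have v013 : coef hd ({⟨0, by omega⟩} ∪ {⟨1, by omega⟩} ∪ {⟨3, by omega⟩} : Finset (Fin d)) = 2 := by
    simp [coef, c4]
  rw [v0, v1, v01, v02, v03, v12, v13, v23, v012, v013] at key'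
  have hz : ∀ m n : ℤ, (q : ℝ) ^ m * (q : ℝ) ^ n = (q : ℝ) ^ (m + n) := fun m n =>
    (zpow_add₀ hq0.ne' m n).symm
  simp only [hz] at key'
  have := (zpow_le_zpow_iff_right₀ hq1').mp key'
  norm_num at this

end Pool.Agent.Q298.Old.IngletonObstruction
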